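import Pool.Agent.Work.MP_49280d_co.Dg.Lim

/-!
# Families in which no point lies in more than `δ l` sets, `δ ≤ 201 / 200`
-/

set_option autoImplicit false

open Finset Filter Pool.Agent.Work.MP_49280d_co

namespace Pool.Agent.Results.MP_49280d_co.DegreeRestricted

/-- `F` is a family of `l`-element sets, any two of which meet in at most two points, and which
contains no three-sunflower: no three distinct members with equal pairwise intersections (which may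
be empty). -/
def Admissible (l : ℕ) (F : Finset (Finset ℕ)) : Prop :=
  (∀ A ∈ F, A.card = l) ∧ (∀ A ∈ F, ∀ B ∈ F, A ≠ B → (A ∩ B).card ≤ 2) ∧
  ∀ A ∈ F, ∀ B ∈ F, ∀ C ∈ F, A ≠ B → A ≠ C → B ≠ C → ¬ (A ∩ B = A ∩ C ∧ A ∩ C = B ∩ C)

/-- The number of members of `F` containing the point `x`. -/
def degree (F : Finset (Finset ℕ)) (x : ℕ) : ℕ := (F.filter (fun A => x ∈ A)).card

/-- Any two members meet. -/
def Intersecting (F : Finset (Finset ℕ)) : Prop := ∀ A ∈ F, ∀ B ∈ F, (A ∩ B).Nonempty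

/-- The largest number of members of an admissible family of `l`-sets in which every point lies in
at most `δ l` members. -/
noncomputable def maxSize (δ : ℝ) (l : ℕ) : ℕ :=
  sSup {N | ∃ F : Finset (Finset ℕ), Admissible l F ∧ (∀ x, (degree F x : ℝ) ≤ δ * l) ∧
    F.card = N}

/-- **Families with degrees at most `δ l`, for `0 < δ ≤ 201 / 200`.** Such an admissible family has
at most `(3/2) min(δ, 1) l ^ 2 + 6` members, and at most `(3/4) min(δ, 1) l ^ 2 + 3` if any two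
members meet; for `l = 4 ^ (k + 1) + 6 * 2 ^ k` both bounds are attained up to `O(l ^ (3 / 2))`;
the limsup of the largest size, divided by `l ^ 2`, is exactly `(3/2) min(δ, 1)`. -/
theorem result (δ : ℝ) (h0 : 0 < δ) (h1 : δ ≤ 201 / 200) :
    (∀ (l : ℕ) (F : Finset (Finset ℕ)), Admissible l F → (∀ x, (degree F x : ℝ) ≤ δ * l) →
      (F.card : ℝ) ≤ 3 / 2 * min δ 1 * (l : ℝ) ^ 2 + 6) ∧
    (∀ (l : ℕ) (F : Finset (Finset ℕ)), Admissible l F → Intersecting F →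
      (∀ x, (degree F x : ℝ) ≤ δ * l) →
      (F.card : ℝ) ≤ 3 / 4 * min δ 1 * (l : ℝ) ^ 2 + 3) ∧
    (∀ k : ℕ, 3 ≤ δ * 2 ^ k → ∃ F G : Finset (Finset ℕ),
      Admissible (4 ^ (k + 1) + 6 * 2 ^ k) F ∧ Admissible (4 ^ (k + 1) + 6 * 2 ^ k) G ∧
      Intersecting G ∧ (∀ x, (degree F x : ℝ) ≤ δ * (4 ^ (k + 1) + 6 * 2 ^ k : ℕ)) ∧
      (∀ x, (degree G x : ℝ) ≤ δ * (4 ^ (k + 1) + 6 * 2 ^ k : ℕ)) ∧
      24 * min δ 1 * 16 ^ k - 12 * 4 ^ k ≤ (F.card : ℝ) ∧
      12 * min δ 1 * 16 ^ k - 6 * 4 ^ k ≤ (G.card : ℝ)) ∧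
    (∀ l : ℕ, ∃ F : Finset (Finset ℕ), Admissible l F ∧ (∀ x, (degree F x : ℝ) ≤ δ * l) ∧
      F.card = maxSize δ l ∧ ∀ G : Finset (Finset ℕ), Admissible l G →
        (∀ x, (degree G x : ℝ) ≤ δ * l) → G.card ≤ maxSize δ l) ∧
    limsup (fun l : ℕ => (maxSize δ l : ℝ) / (l : ℝ) ^ 2) atTop = 3 / 2 * min δ 1 := by
  refine ⟨fun l F hF hd => Dg.upper_gen h0 h1 hF hd, fun l F hF hi hd => Dg.upper_int h0 h1 hF hi hd,
    fun k hk => Dg.lower_pair h0 k hk, fun l => ?_, Dg.limsup_MD h0 h1⟩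
  obtain ⟨F, hF, hd, hc⟩ := Dg.exists_MD δ h0.le l
  exact ⟨F, hF, hd, hc, fun G hG hGd => Dg.mem_le_MD hG hGd⟩

end Pool.Agent.Results.MP_49280d_co.DegreeRestricted
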