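import Pool.Agent.Work.MP_49280d_co.Limsup

/-!
# `limsup M_3(l, 2) / l ^ 2 ≥ 3 / 2`
-/

set_option autoImplicit false

open Finset Filter Pool.Agent.Work.MP_49280d_co

namespace Pool.Agent.Results.MP_49280d_co.LimsupThreeHalves

/-- For `l = 4 ^ (k + 1) + 6 * 2 ^ k` there is an admissible family of `24 * 16 ^ k` sets of size
`l` and an intersecting admissible family of `12 * 16 ^ k` sets of size `l`; in particular
`limsup M_3(l, 2) / l ^ 2 ≥ 3 / 2`. -/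
theorem result :
    (∀ k : ℕ, ∃ F : Finset (Finset ℕ),
      Adm (4 ^ (k + 1) + 6 * 2 ^ k) F ∧ F.card = 24 * 16 ^ k) ∧
    (∀ k : ℕ, ∃ F : Finset (Finset ℕ),
      Adm (4 ^ (k + 1) + 6 * 2 ^ k) F ∧ (∀ A ∈ F, ∀ B ∈ F, (A ∩ B).Nonempty) ∧
        F.card = 12 * 16 ^ k) ∧
    (∀ l : ℕ, ∃ F : Finset (Finset ℕ), Adm l F ∧ F.card = M3 l ∧
      ∀ G : Finset (Finset ℕ), Adm l G → G.card ≤ M3 l) ∧
    (3 / 2 : ℝ) ≤ limsup (fun l : ℕ => (M3 l : ℝ) / (l : ℝ) ^ 2) atTop := by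
  have h4 : ∀ k : ℕ, 4 * (2 ^ k) ^ 2 + 6 * 2 ^ k = 4 ^ (k + 1) + 6 * 2 ^ k := by
    intro k
    have h : (4 : ℕ) ^ k = (2 ^ k) ^ 2 := by
      rw [← pow_mul, mul_comm k 2, pow_mul]
      norm_num
    rw [pow_succ 4 k, h]
    ring
  have h16 : ∀ k : ℕ, (2 ^ k) ^ 4 = 16 ^ k := by
    intro k
    rw [← pow_mul, mul_comm k 4, pow_mul]
    norm_num
  have h3 : ∀ k : ℕ, 3 ≤ 4 ^ (k + 1) + 6 * 2 ^ k := by
    intro k
    have h1 : 1 ≤ 2 ^ k := Nat.one_le_two_pow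
    have h2 : 0 ≤ 4 ^ (k + 1) := Nat.zero_le _
    linarith
  refine ⟨fun k => ?_, fun k => ?_, fun l => ?_, three_halves_le_limsup⟩
  · have g := good_pow k
    rw [h4] at g
    obtain ⟨F, hF, hc⟩ := g.two (h3 k)
    exact ⟨F, hF, by rw [hc, h16]; ring⟩
  · have g := good_pow k
    rw [h4] at g
    obtain ⟨F, hF, hI, hc⟩ := g.one (h3 k)
    exact ⟨F, hF, hI, by rw [hc, h16]⟩
  · obtain ⟨F, hF, hc⟩ := exists_M3 l
    exact ⟨F, hF, hc, fun G hG => hG.le_M3⟩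

end Pool.Agent.Results.MP_49280d_co.LimsupThreeHalves
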