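import Pool.Agent.Work.MP_49280d_co.Fu.Asym

/-!
# MP_49280d_co: a lower bound for three-sunflower-free families with intersections at most 2

For every `ε > 0` and every large `ℓ` there is an admissible family of `ℓ`-sets (`t = 2`) with at
least `(1 - ε) ℓ²` members.
-/

namespace Pool.Agent.Results.MP_49280d_co.LowerBound

open Pool.Agent.Work.MP_49280d_co.Fu

theorem result (ε : ℝ) (hε : 0 < ε) :
    ∃ L : ℕ, ∀ ℓ : ℕ, L ≤ ℓ → ∃ F : Finset (Finset ℕ), Adm ℓ F ∧
      (1 - ε) * (ℓ : ℝ) ^ 2 ≤ F.card :=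
  lower_asymptotic ε hε

end Pool.Agent.Results.MP_49280d_co.LowerBound
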