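import Pool.Agent.Work.MP_49280d_co.Fu.Upper

/-!
# MP_49280d_co: an upper bound for three-sunflower-free families with intersections at most 2

For every `ℓ ≥ 3`, an admissible family of `ℓ`-sets (`t = 2`) has at most
`(24 ℓ² + 12 ℓ + 36) / 10` members.
-/

namespace Pool.Agent.Results.MP_49280d_co.UpperBound

open Pool.Agent.Work.MP_49280d_co.Fu

theorem result {α : Type*} [DecidableEq α] (ℓ : ℕ) (hℓ : 3 ≤ ℓ) (F : Finset (Finset α))
    (hF : Adm ℓ F) :
    10 * F.card ≤ 24 * ℓ ^ 2 + 12 * ℓ + 36 :=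
  general_bound hℓ hF

end Pool.Agent.Results.MP_49280d_co.UpperBound
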